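import Pool.Agent.N449.SY.Main

/-!
# Sparse factorizations of `F (b ^ n)` propagate to arithmetic progressions
-/

set_option autoImplicit false
set_option maxHeartbeats 1000000

namespace Pool.Agent.N449.SY

open Finset Polynomial

/-- `d` is a sum of `s` terms `u b ^ x` with integral `u`, the sum of the `|u|` being at most `c` -/
def Few (b s : ℕ) (c : ℤ) (d : ℤ) : Prop :=
  ∃ (x : Fin s → ℕ) (u : Fin s → ℤ), d = ∑ k, u k * (b : ℤ) ^ x k ∧ ∑ k, |u k| ≤ c

/-- `m` is a product of two integers `≠ 0, ± 1` of this kind -/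
def Splits (b s t : ℕ) (c m : ℤ) : Prop :=
  ∃ d e : ℤ, 1 < |d| ∧ 1 < |e| ∧ d * e = m ∧ Few b s c d ∧ Few b t c e

/-- a complex polynomial with all roots in the unit disc increases on `[1, ∞)` -/
theorem mono_eval (D : ℂ[X]) (h : ∀ z ∈ D.roots, ‖z‖ ≤ 1) (x : ℝ) (hx : 1 ≤ x) :
    ‖D.eval 1‖ ≤ ‖D.eval (x : ℂ)‖ := by
  have hs : D.Splits := IsAlgClosed.splits D
  have key : ∀ y : ℂ, ‖D.eval y‖ = ‖D.leadingCoeff‖ * (D.roots.map (fun z => ‖y - z‖)).prod := by
    intro y
    have h1 := hs.eval_eq_prod_roots y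
    rw [h1, norm_mul]
    congr 1
    have := map_multiset_prod (normHom : ℂ →*₀ ℝ) (D.roots.map (fun z => y - z))
    simpa using this
  rw [key, key]
  apply mul_le_mul_of_nonneg_left _ (norm_nonneg _)
  apply Multiset.prod_map_le_prod_map₀
  · intro z _
    exact norm_nonneg _
  · intro z hz
    have h1 := h z hz
    rw [← sq_le_sq₀ (norm_nonneg _) (norm_nonneg _), ← Complex.normSq_eq_norm_sq, ← Complex.normSq_eq_norm_sq,
      Complex.normSq_apply, Complex.normSq_apply]
    have h2 : z.re ≤ 1 := (Complex.re_le_norm z).trans h1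
    simp only [Complex.sub_re, Complex.sub_im, Complex.one_re, Complex.one_im, Complex.ofReal_re,
      Complex.ofReal_im]
    nlinarith

/-- a bound for the roots -/
theorem root_bound (F : ℤ[X]) (hF : F ≠ 0) (y : ℂ) (hy : eval₂ (Int.castRingHom ℂ) y F = 0) :
    ‖y‖ < (∑ i ∈ range (F.natDegree + 1), |F.coeff i| : ℤ) + 1 := by
  have hinj : Function.Injective (Int.castRingHom ℂ) := Int.cast_injective
  have hF' : F.map (Int.castRingHom ℂ) ≠ 0 := by
    rwa [Ne, Polynomial.map_eq_zero_iff hinj]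
  have h1 := IsRoot.norm_lt_cauchyBound (p := F.map (Int.castRingHom ℂ)) hF' (a := y)
    (by rw [IsRoot.def, eval_map]; exact hy)
  have h2 : ((F.map (Int.castRingHom ℂ)).cauchyBound : ℝ) ≤
      (∑ i ∈ range (F.natDegree + 1), |F.coeff i| : ℤ) + 1 := by
    unfold cauchyBound
    rw [natDegree_map_eq_of_injective hinj, leadingCoeff_map_of_injective hinj]
    push_cast
    have hl : (1 : ℝ) ≤ ‖(Int.castRingHom ℂ) F.leadingCoeff‖ := by
      have h3 : (1 : ℤ) ≤ |F.leadingCoeff| := Int.one_le_abs (leadingCoeff_ne_zero.2 hF)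
      have h4 : ‖(Int.castRingHom ℂ) F.leadingCoeff‖ = ((|F.leadingCoeff| : ℤ) : ℝ) := by
        simp
      rw [h4]
      exact_mod_cast h3
    have h5 : (((range F.natDegree).sup fun i => ‖(F.map (Int.castRingHom ℂ)).coeff i‖₊ : NNReal) : ℝ) ≤
        ∑ i ∈ range (F.natDegree + 1), |(F.coeff i : ℝ)| := by
      have h6 : ((range F.natDegree).sup fun i => ‖(F.map (Int.castRingHom ℂ)).coeff i‖₊ : NNReal) ≤
          ∑ i ∈ range (F.natDegree + 1), ‖(F.map (Int.castRingHom ℂ)).coeff i‖₊ := by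
        apply Finset.sup_le
        intro i hi
        refine Finset.single_le_sum (f := fun i => ‖(F.map (Int.castRingHom ℂ)).coeff i‖₊) (fun _ _ => by positivity) ?_
        rw [Finset.mem_range] at hi ⊢
        omega
      refine (NNReal.coe_le_coe.2 h6).trans (le_of_eq ?_)
      rw [NNReal.coe_sum]
      refine Finset.sum_congr rfl fun i _ => ?_
      rw [coeff_map]
      simp [Int.norm_eq_abs]
    have h7 : (0 : ℝ) ≤ ∑ i ∈ range (F.natDegree + 1), |(F.coeff i : ℝ)| := Finset.sum_nonneg fun _ _ => abs_nonneg _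
    gcongr
    refine (div_le_self (by positivity) hl).trans h5
  have h3 : ‖y‖ < ((F.map (Int.castRingHom ℂ)).cauchyBound : ℝ) := by exact_mod_cast h1
  exact lt_of_lt_of_le h3 h2

/-- grouping the terms -/
theorem group (s : ℕ) (x : Fin s → ℕ) (u : Fin s → ℤ) :
    ∃ (S : Finset ℕ) (u' : ℕ → ℤ), S.card ≤ s ∧ (∀ f : ℕ → ℤ, ∑ k, u k * f (x k) = ∑ i ∈ S, u' i * f i) ∧
      (∀ k, x k ∈ S) ∧ ∑ i ∈ S, |u' i| ≤ ∑ k, |u k| := by
  classical
  refine ⟨univ.image x, fun i => ∑ k ∈ univ.filter (fun k => x k = i), u k, ?_, ?_, ?_, ?_⟩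
  · exact card_image_le.trans (by simp)
  · intro f
    rw [← Finset.sum_fiberwise_of_maps_to (s := univ) (t := univ.image x) (g := x)
      (fun k _ => mem_image_of_mem x (mem_univ k))]
    refine Finset.sum_congr rfl fun i _ => ?_
    rw [Finset.sum_mul]
    refine Finset.sum_congr rfl fun k hk => ?_
    rw [(mem_filter.1 hk).2]
  · intro k
    exact mem_image_of_mem x (mem_univ k)
  · rw [← Finset.sum_fiberwise_of_maps_to (s := univ) (t := univ.image x) (g := x)
      (fun k _ => mem_image_of_mem x (mem_univ k))]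
    exact Finset.sum_le_sum fun i _ => Finset.abs_sum_le_sum_abs _ _

/-- **Propagation.** -/
theorem propagate (b : ℕ) (hb : 2 ≤ b) (F : ℤ[X]) (hcop : IsCoprime (b : ℤ) (F.coeff 0)) (s t : ℕ) (c : ℤ)
    (n : ℕ) (hn : 0 < n) (hs : Splits b s t c (F.eval ((b : ℤ) ^ n)))
    (hbig : (b + (∑ i ∈ range (F.natDegree + 1), |F.coeff i|) + c ^ 2) ^ (4 * t * (8 * t) ^ (s - 1)) <
      (b : ℤ) ^ n) :
    ∃ q : ℕ, 0 < q ∧ q ≤ (8 * t) ^ (s - 1) ∧ ∀ l : ℕ, Splits b s t c (F.eval ((b : ℤ) ^ (n + q * l))) := by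
  obtain ⟨d, e, hd, he, hde, ⟨x, u, hdx, hu⟩, ⟨y, v, hey, hv⟩⟩ := hs
  obtain ⟨S, u', hS, hSf, hxS, hSu⟩ := group s x u
  obtain ⟨T, v', hT, hTf, hyT, hTv⟩ := group t y v
  have hb1 : (1 : ℤ) ≤ b := by exact_mod_cast (by omega : 1 ≤ b)
  have hdS : d = ∑ i ∈ S, u' i * (b : ℤ) ^ i := by rw [hdx, hSf (fun i => (b : ℤ) ^ i)]
  have heT : e = ∑ j ∈ T, v' j * (b : ℤ) ^ j := by rw [hey, hTf (fun i => (b : ℤ) ^ i)]
  have hSF0 : 0 ≤ ∑ i ∈ range (F.natDegree + 1), |F.coeff i| := Finset.sum_nonneg fun _ _ => abs_nonneg _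
  have hA0 : 0 ≤ ∑ i ∈ S, |u' i| := Finset.sum_nonneg fun _ _ => abs_nonneg _
  have hB0 : 0 ≤ ∑ j ∈ T, |v' j| := Finset.sum_nonneg fun _ _ => abs_nonneg _
  have hAB : (∑ i ∈ S, |u' i|) * (∑ j ∈ T, |v' j|) ≤ c ^ 2 := by
    rw [pow_two]
    exact mul_le_mul (hSu.trans hu) (hTv.trans hv) hB0 (hA0.trans (hSu.trans hu))
  have hT1 : 1 ≤ T.card := by
    by_contra hcon
    have : T = ∅ := Finset.card_eq_zero.1 (by omega)
    rw [heT, this] at he
    simp at he
  have ht1 : 1 ≤ t := hT1.trans hT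
  have hQ : (8 * T.card) ^ (S.card - 1) ≤ (8 * t) ^ (s - 1) :=
    (Nat.pow_le_pow_left (by omega) _).trans (Nat.pow_le_pow_right (by omega) (by omega))
  obtain ⟨q, hq0, hqQ, α, β, T', hT', hprod⟩ := main2 b hb n hn F hcop d e hde S T u' v' hdS heT (by
    refine lt_of_le_of_lt ?_ hbig
    calc _ ≤ (b + (∑ i ∈ range (F.natDegree + 1), |F.coeff i|) + c ^ 2) ^
          (4 * T.card * (8 * T.card) ^ (S.card - 1)) := pow_le_pow_left₀ (by positivity) (by linarith) _
      _ ≤ _ := pow_le_pow_right₀ (by nlinarith [sq_nonneg c]) (Nat.mul_le_mul (by omega) hQ))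
  refine ⟨q, hq0, hqQ.trans hQ, fun l => ?_⟩
  obtain ⟨D, hD⟩ : ∃ D : ℤ[X], D = ∑ i ∈ S, C (u' i * (b : ℤ) ^ i) * X ^ (α i) := ⟨_, rfl⟩
  obtain ⟨E, hE⟩ : ∃ E : ℤ[X], E = ∑ j ∈ T', C (v' j * (b : ℤ) ^ j) * X ^ (β j) := ⟨_, rfl⟩
  rw [← hD, ← hE] at hprod
  have hevD : ∀ l : ℕ, D.eval ((b : ℤ) ^ l) = ∑ i ∈ S, u' i * (b : ℤ) ^ (i + l * α i) := by
    intro l
    rw [hD, eval_finsetSum]
    refine Finset.sum_congr rfl fun i _ => ?_
    rw [eval_mul, eval_C, eval_pow, eval_X, pow_add, pow_mul]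
    ring
  have hevE : ∀ l : ℕ, E.eval ((b : ℤ) ^ l) = ∑ j ∈ T', v' j * (b : ℤ) ^ (j + l * β j) := by
    intro l
    rw [hE, eval_finsetSum]
    refine Finset.sum_congr rfl fun i _ => ?_
    rw [eval_mul, eval_C, eval_pow, eval_X, pow_add, pow_mul]
    ring
  have hval : ∀ l : ℕ, D.eval ((b : ℤ) ^ l) * E.eval ((b : ℤ) ^ l) = F.eval ((b : ℤ) ^ (n + q * l)) := by
    intro l
    rw [← eval_mul, hprod, eval_comp]
    congr 1
    simp only [eval_mul, eval_C, eval_pow, eval_X]
    rw [pow_add, ← pow_mul]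
    ring_nf
  have hD1 : D.eval 1 = d := by
    have := hevD 0
    simp only [pow_zero, zero_mul, add_zero] at this
    rw [this, hdS]
  have hd0 : d ≠ 0 := by
    rintro rfl
    simp at hd
  have hE1 : E.eval 1 = e := by
    have h1 := hval 0
    simp only [pow_zero, mul_zero, add_zero] at h1
    rw [hD1, ← hde] at h1
    exact mul_left_cancel₀ hd0 h1
  have hF0 : F ≠ 0 := by
    rintro rfl
    rw [eval_zero] at hde
    have : e ≠ 0 := by
      rintro rfl
      simp at he
    exact mul_ne_zero hd0 this hde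
  -- growth
  have hgrow : ∀ G H : ℤ[X], G * H = F.comp (C ((b : ℤ) ^ n) * X ^ q) → G ≠ 0 →
      |G.eval 1| ≤ |G.eval ((b : ℤ) ^ l)| := by
    intro G H hGH hG
    have hinj : Function.Injective (Int.castRingHom ℂ) := Int.cast_injective
    have h1 := mono_eval (G.map (Int.castRingHom ℂ)) (by
      intro z hz
      rw [mem_roots (by rwa [Ne, Polynomial.map_eq_zero_iff hinj]), IsRoot.def, eval_map] at hz
      have h2 : eval₂ (Int.castRingHom ℂ) z (F.comp (C ((b : ℤ) ^ n) * X ^ q)) = 0 := by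
        rw [← hGH, eval₂_mul, hz, zero_mul]
      rw [eval₂_comp] at h2
      have h3 := root_bound F hF0 _ h2
      simp only [eval₂_mul, eval₂_C, eval₂_pow, eval₂_X, norm_mul, norm_pow] at h3
      by_contra hcon
      push Not at hcon
      have h4 : (1 : ℝ) ≤ ‖z‖ ^ q := one_le_pow₀ hcon.le
      have h5 : ‖(Int.castRingHom ℂ) ((b : ℤ) ^ n)‖ = (((b : ℤ) ^ n : ℤ) : ℝ) := by
        simp
      rw [h5] at h3
      have h6 : (b : ℤ) + (∑ i ∈ range (F.natDegree + 1), |F.coeff i|) + c ^ 2 ≤ (b : ℤ) ^ n := by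
        refine le_trans ?_ hbig.le
        exact le_self_pow₀ (by nlinarith [sq_nonneg c]) (by positivity)
      have h7 : ((((∑ i ∈ range (F.natDegree + 1), |F.coeff i|) : ℤ) : ℝ) + 1) ≤ (((b : ℤ) ^ n : ℤ) : ℝ) := by
        have : (∑ i ∈ range (F.natDegree + 1), |F.coeff i|) + 1 ≤ (b : ℤ) ^ n := by nlinarith [sq_nonneg c]
        exact_mod_cast this
      have h8 : (0 : ℝ) ≤ (((b : ℤ) ^ n : ℤ) : ℝ) := by positivity
      nlinarith) ((b : ℝ) ^ l) (one_le_pow₀ (by exact_mod_cast hb1))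
    have h2 : ∀ z : ℤ, ‖(G.map (Int.castRingHom ℂ)).eval ((z : ℤ) : ℂ)‖ = ((|G.eval z| : ℤ) : ℝ) := by
      intro z
      have h3 : (G.map (Int.castRingHom ℂ)).eval ((z : ℤ) : ℂ) = ((G.eval z : ℤ) : ℂ) := by
        rw [eval_map]
        exact eval₂_at_apply (Int.castRingHom ℂ) z
      rw [h3, Complex.norm_intCast]
      push_cast
      rfl
    have h3 := h2 1
    have h4 := h2 ((b : ℤ) ^ l)
    push_cast at h3 h4 h1
    rw [h3, h4] at h1
    exact_mod_cast h1
  have hDE0 : F.comp (C ((b : ℤ) ^ n) * X ^ q) ≠ 0 := by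
    intro h0
    have h1 := hval 0
    rw [← eval_mul, hprod, h0, eval_zero] at h1
    simp only [mul_zero, add_zero] at h1
    rw [← hde] at h1
    have : e ≠ 0 := by
      rintro rfl
      simp at he
    exact mul_ne_zero hd0 this h1.symm
  have hDne : D ≠ 0 := by
    rintro h0
    rw [h0, zero_mul] at hprod
    exact hDE0 hprod.symm
  have hEne : E ≠ 0 := by
    rintro h0
    rw [h0, mul_zero] at hprod
    exact hDE0 hprod.symm
  refine ⟨D.eval ((b : ℤ) ^ l), E.eval ((b : ℤ) ^ l), ?_, ?_, hval l, ?_, ?_⟩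
  · have := hgrow D E hprod hDne
    rw [hD1] at this
    linarith
  · have := hgrow E D (by rw [mul_comm]; exact hprod) hEne
    rw [hE1] at this
    linarith
  · refine ⟨fun k => x k + l * α (x k), u, ?_, hu⟩
    rw [hevD, hSf (fun i => (b : ℤ) ^ (i + l * α i))]
  · classical
    refine ⟨fun k => y k + l * β (y k), fun k => if y k ∈ T' then v k else 0, ?_, ?_⟩
    · have h1 := hTf (fun j => if j ∈ T' then (b : ℤ) ^ (j + l * β j) else 0)
      rw [hevE]
      have h2 : ∑ j ∈ T, v' j * (if j ∈ T' then (b : ℤ) ^ (j + l * β j) else 0) =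
          ∑ j ∈ T', v' j * (b : ℤ) ^ (j + l * β j) := by
        simp only [mul_ite, mul_zero]
        rw [← Finset.sum_filter, Finset.filter_mem_eq_inter, Finset.inter_eq_right.2 hT']
      rw [← h2, ← h1]
      refine Finset.sum_congr rfl fun k _ => ?_
      show v k * (if y k ∈ T' then (b : ℤ) ^ (y k + l * β (y k)) else 0)
        = (if y k ∈ T' then v k else 0) * (b : ℤ) ^ (y k + l * β (y k))
      by_cases hk : y k ∈ T'
      · rw [if_pos hk, if_pos hk]
      · rw [if_neg hk, if_neg hk, mul_zero, zero_mul]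
    · refine (Finset.sum_le_sum fun k _ => ?_).trans hv
      show |(if y k ∈ T' then v k else 0)| ≤ |v k|
      split_ifs
      · exact le_rfl
      · simp

/-- a set closed under `+ p` is eventually periodic -/
theorem periodic (A : ℕ → Prop) (p : ℕ) (hp : 0 < p) (N₀ : ℕ) (h : ∀ n, N₀ ≤ n → A n → A (n + p)) :
    ∃ N, ∀ n, N ≤ n → (A n ↔ A (n + p)) := by
  classical
  have hex : ∀ r : ℕ, ∃ m : ℕ, (∃ n, N₀ ≤ n ∧ n % p = r ∧ A n) → N₀ ≤ m ∧ m % p = r ∧ A m := by
    intro r
    by_cases hr : ∃ n, N₀ ≤ n ∧ n % p = r ∧ A n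
    · obtain ⟨m, hm⟩ := hr
      exact ⟨m, fun _ => hm⟩
    · exact ⟨0, fun h => absurd h hr⟩
  choose m hm using hex
  refine ⟨N₀ + ∑ r ∈ range p, m r, fun n hn => ⟨h n (by omega), fun hA => ?_⟩⟩
  obtain ⟨h1, h2, h3⟩ := hm (n % p) ⟨n + p, by omega, by simp, hA⟩
  have h4 : m (n % p) ≤ ∑ r ∈ range p, m r :=
    Finset.single_le_sum (f := m) (fun _ _ => Nat.zero_le _) (Finset.mem_range.2 (Nat.mod_lt _ hp))
  have h5 : ∀ k : ℕ, A (m (n % p) + k * p) := by
    intro k
    induction k with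
    | zero => simpa using h3
    | succ k ih =>
      have := h _ (by omega) ih
      rwa [Nat.succ_mul, ← Nat.add_assoc]
  have h6 : m (n % p) ≤ n := by omega
  have h7 : (m (n % p)) ≡ n [MOD p] := h2
  obtain ⟨k, hk⟩ := (Nat.modEq_iff_dvd' h6).1 h7
  have h8 : n = m (n % p) + k * p := by
    rw [mul_comm k p, ← hk]
    omega
  rw [h8]
  exact h5 k

theorem splits_periodic (b : ℕ) (hb : 2 ≤ b) (F : ℤ[X]) (hcop : IsCoprime (b : ℤ) (F.coeff 0)) (s t : ℕ) (c : ℤ) :
    ∃ N, ∀ n, N ≤ n → (Splits b s t c (F.eval ((b : ℤ) ^ n)) ↔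
      Splits b s t c (F.eval ((b : ℤ) ^ (n + ((8 * t) ^ (s - 1)).factorial)))) := by
  obtain ⟨M, hM⟩ : ∃ M : ℤ, M = (b + (∑ i ∈ range (F.natDegree + 1), |F.coeff i|) + c ^ 2) ^
    (4 * t * (8 * t) ^ (s - 1)) := ⟨_, rfl⟩
  apply periodic (fun n => Splits b s t c (F.eval ((b : ℤ) ^ n))) _ (Nat.factorial_pos _) (M.toNat + 1)
  intro n hn hA
  have h1 : M < (b : ℤ) ^ n := by
    have h2 : n < b ^ n := Nat.lt_pow_self hb
    have h3 : (n : ℤ) < (b : ℤ) ^ n := by exact_mod_cast h2
    have h4 : M ≤ (M.toNat : ℤ) := Int.self_le_toNat M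
    have h5 : ((M.toNat + 1 : ℕ) : ℤ) ≤ n := by exact_mod_cast hn
    push_cast at h5
    linarith
  rw [hM] at h1
  obtain ⟨q, hq0, hqQ, hq⟩ := propagate b hb F hcop s t c n (by omega) hA h1
  obtain ⟨l, hl⟩ := Nat.dvd_factorial hq0 hqQ
  have := hq l
  rw [← hl] at this
  exact this

/-! ### palindromes -/

/-- insert `k` zeros between the letters of a word -/
def spread (k : ℕ) : List ℕ → List ℕ
  | [] => []
  | [a] => [a]
  | a :: c :: L => a :: (List.replicate k 0 ++ spread k (c :: L))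

theorem ofDigits_spread (b k : ℕ) (L : List ℕ) : Nat.ofDigits b (spread k L) = Nat.ofDigits (b ^ (k + 1)) L := by
  induction L with
  | nil => simp [spread]
  | cons a L ih =>
    cases L with
    | nil => simp [spread]
    | cons c L =>
      have h1 : Nat.ofDigits (b ^ (k + 1)) (a :: c :: L) = a + b ^ (k + 1) * Nat.ofDigits (b ^ (k + 1)) (c :: L) := by
        rw [Nat.ofDigits_cons]
      rw [spread, Nat.ofDigits_cons, Nat.ofDigits_append, ih, Nat.ofDigits_replicate_zero, List.length_replicate, h1]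
      ring

theorem spread_concat (k : ℕ) (L : List ℕ) (hL : L ≠ []) (a : ℕ) :
    spread k (L ++ [a]) = spread k L ++ (List.replicate k 0 ++ [a]) := by
  induction L with
  | nil => exact absurd rfl hL
  | cons c L ih =>
    cases L with
    | nil => simp [spread]
    | cons d L =>
      have h1 := ih (by simp)
      have h2 : c :: d :: L ++ [a] = c :: d :: (L ++ [a]) := rfl
      have h3 : d :: (L ++ [a]) = d :: L ++ [a] := rfl
      rw [h2, spread, h3, h1, spread]
      simp

theorem spread_reverse (k : ℕ) (L : List ℕ) : (spread k L).reverse = spread k L.reverse := by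
  induction L with
  | nil => simp [spread]
  | cons a L ih =>
    cases L with
    | nil => simp [spread]
    | cons c L =>
      rw [List.reverse_cons (a := a), spread_concat k _ (by simp), ← ih, spread]
      simp

theorem mem_spread (k : ℕ) (L : List ℕ) (z : ℕ) (hz : z ∈ spread k L) : z ∈ L ∨ z = 0 := by
  induction L with
  | nil => simp [spread] at hz
  | cons a L ih =>
    cases L with
    | nil => exact Or.inl (by simpa [spread] using hz)
    | cons c L =>
      rw [spread] at hz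
      simp only [List.mem_cons, List.mem_append, List.mem_replicate] at hz ih ⊢
      rcases hz with h | ⟨_, h⟩ | h
      · exact Or.inl (Or.inl h)
      · exact Or.inr h
      · rcases ih h with h' | h'
        · exact Or.inl (Or.inr h')
        · exact Or.inr h'

theorem palindrome_spread (b : ℕ) (hb : 2 ≤ b) (L : List ℕ) (hL : L.Palindrome) (hLb : ∀ a ∈ L, a < b)
    (a : ℕ) (ha : a ≠ 0) (hLa : L.head? = some a) (n : ℕ) (hn : 0 < n) :
    (Nat.digits b (Nat.ofDigits (b ^ n) L)).Palindrome := by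
  obtain ⟨k, rfl⟩ : ∃ k, n = k + 1 := ⟨n - 1, by omega⟩
  have hrev : (spread k L).reverse = spread k L := by rw [spread_reverse, hL.reverse_eq]
  have h1 : Nat.digits b (Nat.ofDigits (b ^ (k + 1)) L) = spread k L := by
    rw [← ofDigits_spread]
    apply Nat.digits_ofDigits b (by omega)
    · intro z hz
      rcases mem_spread k L z hz with h | h
      · exact hLb z h
      · omega
    · intro hne
      have h2 : (spread k L).getLast hne = a := by
        have h3 : (spread k L).getLast? = some a := by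
          rw [← List.head?_reverse, hrev]
          cases L with
          | nil => simp at hLa
          | cons c L =>
            cases L with
            | nil => simpa [spread] using hLa
            | cons d L => simpa [spread] using hLa
        rw [List.getLast?_eq_some_getLast hne] at h3
        exact Option.some_injective _ h3
      rw [h2]
      exact ha
  rw [h1]
  exact List.Palindrome.of_reverse_eq hrev

/-- the polynomial with the coefficients `L` -/
noncomputable def poly : List ℕ → ℤ[X]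
  | [] => 0
  | a :: L => C (a : ℤ) + X * poly L

theorem poly_eval (L : List ℕ) (x : ℕ) : (poly L).eval (x : ℤ) = (Nat.ofDigits x L : ℕ) := by
  induction L with
  | nil => simp [poly]
  | cons a L ih =>
    rw [poly, eval_add, eval_mul, eval_C, eval_X, ih, Nat.ofDigits_cons]
    push_cast
    ring

theorem poly_sum (L : List ℕ) : ∑ i ∈ range L.length, |(poly L).coeff i| = L.sum := by
  induction L with
  | nil => simp
  | cons a L ih =>
    rw [List.length_cons, Finset.sum_range_succ', poly]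
    simp only [coeff_add, coeff_X_mul, coeff_C_succ, zero_add, mul_coeff_zero, coeff_X_zero, zero_mul, add_zero,
      coeff_C_zero]
    rw [ih, List.sum_cons]
    push_cast
    rw [abs_of_nonneg (by positivity)]
    ring

theorem poly_deg (L : List ℕ) (hL : L ≠ []) : (poly L).natDegree < L.length := by
  induction L with
  | nil => exact absurd rfl hL
  | cons a L ih =>
    cases L with
    | nil => simp [poly]
    | cons c L =>
      have h1 := ih (by simp)
      rw [poly]
      refine lt_of_le_of_lt (natDegree_add_le _ _) ?_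
      rw [natDegree_C]
      have h2 : (X * poly (c :: L)).natDegree ≤ 1 + (poly (c :: L)).natDegree :=
        natDegree_mul_le.trans (by rw [natDegree_X])
      simp only [List.length_cons] at h1 ⊢
      omega

theorem word (b : ℕ) (hb : 2 ≤ b) (L : List ℕ) (a : ℕ) (hLa : L.head? = some a) (hab : a.Coprime b) :
    (∀ (s t : ℕ) (c : ℤ) (n : ℕ), 0 < n → Splits b s t c (Nat.ofDigits (b ^ n) L : ℕ) →
      ((b : ℤ) + L.sum + c ^ 2) ^ (4 * t * (8 * t) ^ (s - 1)) < (b : ℤ) ^ n →
      ∃ q : ℕ, 0 < q ∧ q ≤ (8 * t) ^ (s - 1) ∧ ∀ l : ℕ, Splits b s t c (Nat.ofDigits (b ^ (n + q * l)) L : ℕ)) ∧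
    (∀ (s t : ℕ) (c : ℤ), ∃ N, ∀ n, N ≤ n → (Splits b s t c (Nat.ofDigits (b ^ n) L : ℕ) ↔
      Splits b s t c (Nat.ofDigits (b ^ (n + ((8 * t) ^ (s - 1)).factorial)) L : ℕ))) := by
  have hne : L ≠ [] := by
    rintro rfl
    simp at hLa
  have hco : (poly L).coeff 0 = a := by
    cases L with
    | nil => simp at hLa
    | cons c L =>
      have : c = a := by simpa using hLa
      simp [poly, this]
  have hcop : IsCoprime (b : ℤ) ((poly L).coeff 0) := by
    rw [hco]
    exact (Nat.isCoprime_iff_coprime.2 hab).symm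
  have hev : ∀ n : ℕ, (poly L).eval ((b : ℤ) ^ n) = (Nat.ofDigits (b ^ n) L : ℕ) := by
    intro n
    rw [← poly_eval]
    push_cast
    rfl
  constructor
  · intro s t c n hn hs hbig
    rw [← hev] at hs
    have h1 : ∑ i ∈ range ((poly L).natDegree + 1), |(poly L).coeff i| ≤ L.sum := by
      rw [← poly_sum]
      apply Finset.sum_le_sum_of_subset_of_nonneg
      · intro i hi
        rw [Finset.mem_range] at hi ⊢
        have := poly_deg L hne
        omega
      · intro _ _ _
        exact abs_nonneg _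
    have h2 : 0 ≤ ∑ i ∈ range ((poly L).natDegree + 1), |(poly L).coeff i| :=
      Finset.sum_nonneg fun _ _ => abs_nonneg _
    obtain ⟨q, hq0, hqQ, hq⟩ := propagate b hb (poly L) hcop s t c n hn hs
      (lt_of_le_of_lt (pow_le_pow_left₀ (by positivity) (by linarith) _) hbig)
    refine ⟨q, hq0, hqQ, fun l => ?_⟩
    rw [← hev]
    exact hq l
  · intro s t c
    obtain ⟨N, hN⟩ := splits_periodic b hb (poly L) hcop s t c
    refine ⟨N, fun n hn => ?_⟩
    rw [← hev, ← hev]
    exact hN n hn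

end Pool.Agent.N449.SY
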